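import Pool.Agent.N115.AN.Stm

/-!
AN/7: algebraicity over the field of the functions which are meromorphic at infinity.
-/

set_option autoImplicit false

open Polynomial Pool.Agent.Y190.BV Pool.Agent.N115.AN
open Pool.Agent.Y190.AN (MK exD Minf interp_mem)

namespace Pool.Agent.N92.AN

section general

variable {E K M : Type} [Field E] [Field K] [Field M] [Algebra E K] [Algebra K M] [Algebra E M]
  [IsScalarTower E K M]

/-- factors of polynomials over a field which is algebraically closed in `M` -/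
theorem concl_factor (A : IntermediateField E M) (hA : ∀ x : M, IsAlgebraic A x → x ∈ A)
    {G : A[X]} (hG : G.Monic) {p : M[X]} (hp : p.Monic) (hd : p ∣ G.map (algebraMap A M)) :
    ∃ p' : A[X], p'.map (algebraMap A M) = p := by
  have h1 := integralClosure.mem_lifts_of_monic_of_dvd_map M hG hp hd
  have h2 : p ∈ lifts (algebraMap A M) := by
    rw [lifts_iff_coeff_lifts] at h1 ⊢
    intro j
    obtain ⟨c, hc⟩ := h1 j
    have h3 : IsAlgebraic A (p.coeff j) := by
      rw [← hc]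
      exact (c.2 : IsIntegral A (c : M)).isAlgebraic
    exact ⟨⟨_, hA _ h3⟩, rfl⟩
  obtain ⟨p', hp'⟩ := (mem_lifts _).1 h2
  exact ⟨p', hp'⟩

theorem concl_general {m N : ℕ} (hm : 1 ≤ m) (F' : E[X]) (hF : F'.Monic) (a : Fin (N + 1) → E)
    (H : M[X]) (u : M) (T T' : Finset M[X]) (e : M[X] → ℕ)
    (hH : H = C u * ((∏ p ∈ T, p ^ e p) * ∏ p ∈ T', p ^ e p)) (hmon : ∀ p ∈ T, p.Monic)
    (hdvd : (∏ p ∈ T, p) ∣ F'.map (algebraMap E M))
    (hcst : ∀ p ∈ T', ∃ c : E, p = X - C (algebraMap E M c)) (y : Fin (N + 1) → M)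
    (hy : ∀ i, y i ^ m = H.eval (algebraMap E M (a i))) (i0 : Fin (N + 1)) (hi0 : y i0 = 1)
    (i : Fin (N + 1)) : IsAlgebraic E (y i) := by
  classical
  obtain ⟨A, hAd⟩ : ∃ A : IntermediateField E M, A = algebraicClosure E M := ⟨_, rfl⟩
  have hAm : ∀ x : M, x ∈ A ↔ IsAlgebraic E x := fun x => by
    rw [hAd]
    exact mem_algebraicClosure_iff
  have halg : Algebra.IsAlgebraic E A := by
    refine ⟨fun x => ?_⟩
    have h1 := (hAm x).1 x.2
    exact (isAlgebraic_algebraMap_iff (algebraMap A M).injective).1 h1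
  have hA : ∀ x : M, IsAlgebraic A x → x ∈ A := fun x hx =>
    (hAm x).2 (hx.restrictScalars E)
  have hev : ∀ c : E, ∀ p : A[X], (p.map (algebraMap A M)).eval (algebraMap E M c) ∈ A := by
    intro c p
    rw [IsScalarTower.algebraMap_apply E A M, Polynomial.eval_map_algebraMap,
      Polynomial.aeval_algebraMap_apply]
    exact (aeval (algebraMap E A c) p).2
  have hT : ∀ p ∈ T, ∀ c : E, p.eval (algebraMap E M c) ∈ A := by
    intro p hp c
    have h1 : p ∣ (F'.map (algebraMap E A)).map (algebraMap A M) := by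
      rw [Polynomial.map_map, ← IsScalarTower.algebraMap_eq]
      exact (Finset.dvd_prod_of_mem _ hp).trans hdvd
    obtain ⟨p', hp'⟩ := concl_factor A hA (hF.map _) (hmon p hp) h1
    rw [← hp']
    exact hev c p'
  have hT' : ∀ p ∈ T', ∀ c : E, p.eval (algebraMap E M c) ∈ A := by
    intro p hp c
    obtain ⟨d, rfl⟩ := hcst p hp
    rw [Polynomial.eval_sub, Polynomial.eval_X, Polynomial.eval_C]
    exact A.sub_mem (A.algebraMap_mem c) (A.algebraMap_mem d)
  have hP : ∀ c : E, ((∏ p ∈ T, p ^ e p) * ∏ p ∈ T', p ^ e p).eval (algebraMap E M c) ∈ A := by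
    intro c
    rw [Polynomial.eval_mul, Polynomial.eval_prod, Polynomial.eval_prod]
    refine A.mul_mem (prod_mem fun p hp => ?_) (prod_mem fun p hp => ?_)
    · rw [Polynomial.eval_pow]
      exact pow_mem (hT p hp c) _
    · rw [Polynomial.eval_pow]
      exact pow_mem (hT' p hp c) _
  have hHe : ∀ c : E, H.eval (algebraMap E M c) =
      u * ((∏ p ∈ T, p ^ e p) * ∏ p ∈ T', p ^ e p).eval (algebraMap E M c) := by
    intro c
    conv_lhs => rw [hH]
    rw [Polynomial.eval_mul, Polynomial.eval_C]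
  have hu : u ∈ A := by
    have h1 := hy i0
    rw [hi0, one_pow, hHe] at h1
    have h2 : u = (((∏ p ∈ T, p ^ e p) * ∏ p ∈ T', p ^ e p).eval (algebraMap E M (a i0)))⁻¹ :=
      eq_inv_of_mul_eq_one_left h1.symm
    rw [h2]
    exact A.inv_mem (hP _)
  have h1 : y i ^ m ∈ A := by
    rw [hy, hHe]
    exact A.mul_mem hu (hP _)
  exact IsAlgebraic.of_pow (by omega) ((hAm _).1 h1)

end general

theorem concl_minf : ConclMinf := by
  intro r0 hr0 M _ _ _ _ m N q a a' hm ha' F hF hdeg hroot hrat H u T T' e hfac y hy i0 hi0 i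
  obtain ⟨F', hF'm, hF'⟩ := interp_mem (Minf r0 hr0) a' ha' hF hdeg hrat (hroot _)
  have hst : IsScalarTower (Minf r0 hr0) (MK (exD r0 hr0)) M :=
    IsScalarTower.of_algebraMap_eq fun _ => rfl
  have hc : ∀ c : ℂ, algebraMap ℂ M c = algebraMap (Minf r0 hr0) M (algebraMap ℂ (Minf r0 hr0) c) := by
    intro c
    rw [IsScalarTower.algebraMap_apply ℂ (MK (exD r0 hr0)) M]
    rfl
  refine concl_general hm F' hF'm (fun i => algebraMap ℂ (Minf r0 hr0) (a i))
    H u T T' e hfac.eq (fun p hp => (hfac.irr p hp).2.1) ?_ ?_ y ?_ i0 hi0 i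
  · have h1 := hfac.dvd
    rw [← hF', Polynomial.map_map] at h1
    exact h1
  · intro p hp
    obtain ⟨c, h⟩ := hfac.cst p hp
    exact ⟨algebraMap ℂ (Minf r0 hr0) c, by rw [h, hc]⟩
  · intro i
    rw [hy, hc]

end Pool.Agent.N92.AN
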