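import Pool.Agent.N115.AN.Stm

/-!
AN/6: the product of the irreducible factors of the conjugates of a polynomial.
-/

set_option autoImplicit false

open Polynomial Pool.Agent.Y190.BV Pool.Agent.N115.AN

namespace Pool.Agent.N92.AN

lemma conj_sum_le {α β : Type} [DecidableEq β] [DecidableEq α] (s : Finset α) (t : α → Finset β) (f : β → ℕ) :
    ∑ b ∈ s.biUnion t, f b ≤ ∑ a ∈ s, ∑ b ∈ t a, f b := by
  induction s using Finset.induction_on with
  | empty => simp
  | insert a s ha ih =>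
    rw [Finset.biUnion_insert, Finset.sum_insert ha]
    have h1 : ∑ b ∈ t a ∪ s.biUnion t, f b + ∑ b ∈ t a ∩ s.biUnion t, f b =
        ∑ b ∈ t a, f b + ∑ b ∈ s.biUnion t, f b := Finset.sum_union_inter
    omega

section conj

variable {k K M : Type} [Field k] [Field K] [Field M] [Algebra k K] [Algebra k M] [Algebra K M]
  [IsScalarTower k K M]

/-- the conjugate of a polynomial -/
noncomputable def sg (g : M ≃ₐ[K] M) (p : M[X]) : M[X] := p.map (g : M →+* M)

lemma sg_mul (g : M ≃ₐ[K] M) (p q : M[X]) : sg g (p * q) = sg g p * sg g q := Polynomial.map_mul _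

lemma sg_pow (g : M ≃ₐ[K] M) (p : M[X]) (n : ℕ) : sg g (p ^ n) = sg g p ^ n :=
  Polynomial.map_pow _ _

lemma sg_prod (g : M ≃ₐ[K] M) {ι : Type} (s : Finset ι) (f : ι → M[X]) :
    sg g (∏ i ∈ s, f i) = ∏ i ∈ s, sg g (f i) := Polynomial.map_prod _ _ _

lemma sg_sg (g h : M ≃ₐ[K] M) (p : M[X]) : sg g (sg h p) = sg (g * h) p := by
  unfold sg
  rw [Polynomial.map_map]
  rfl

lemma sg_one (p : M[X]) : sg (1 : M ≃ₐ[K] M) p = p := by
  unfold sg
  exact Polynomial.map_id

lemma sg_inv (g : M ≃ₐ[K] M) (p : M[X]) : sg g⁻¹ (sg g p) = p := by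
  rw [sg_sg, inv_mul_cancel, sg_one]

lemma sg_inv' (g : M ≃ₐ[K] M) (p : M[X]) : sg g (sg g⁻¹ p) = p := by
  rw [sg_sg, mul_inv_cancel, sg_one]

lemma sg_inj (g : M ≃ₐ[K] M) : Function.Injective (sg g) := fun p q h => by
  rw [← sg_inv g p, h, sg_inv]

lemma sg_monic (g : M ≃ₐ[K] M) {p : M[X]} (hp : p.Monic) : (sg g p).Monic := hp.map _

lemma sg_irr (g : M ≃ₐ[K] M) {p : M[X]} (hp : Irreducible p) : Irreducible (sg g p) := by
  have h := (MulEquiv.irreducible_iff (Polynomial.mapEquiv (g : M ≃+* M)) (x := p)).2 hp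
  exact h

lemma sg_dvd (g : M ≃ₐ[K] M) {p q : M[X]} (h : p ∣ q) : sg g p ∣ sg g q := Polynomial.map_dvd _ h

lemma sg_deg (g : M ≃ₐ[K] M) (p : M[X]) : (sg g p).natDegree = p.natDegree :=
  Polynomial.natDegree_map _

lemma sg_eval (g : M ≃ₐ[K] M) (p : M[X]) (c : k) :
    (sg g p).eval (algebraMap k M c) = g (p.eval (algebraMap k M c)) := by
  have h1 : g (algebraMap k M c) = algebraMap k M c := by
    rw [IsScalarTower.algebraMap_apply k K M, g.commutes]
  unfold sg
  conv_lhs => rw [← h1]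
  rw [Polynomial.eval_map]
  exact Polynomial.eval₂_hom (g : M →+* M) _

end conj

theorem conj_f : ConjF := by
  intro k K M _ _ _ _ _ _ _ _ _ _ _ r n m N a ha hnN hm H y hH hdeg hy hmult hr
  classical
  have hchM : CharZero M := charZero_of_injective_algebraMap (algebraMap k M).injective
  obtain ⟨T0, e, u, hu, hT, hHT, hTall⟩ := factor hH
  set T : Finset M[X] := T0.filter (fun p => ∀ c : k, p.eval (algebraMap k M c) ≠ 0) with hTd
  set T' : Finset M[X] := T0.filter (fun p => ¬ ∀ c : k, p.eval (algebraMap k M c) ≠ 0) with hT'd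
  have hTT : ∀ p ∈ T, p ∈ T0 := fun p hp => (Finset.mem_filter.1 hp).1
  have hTT' : ∀ p ∈ T', p ∈ T0 := fun p hp => (Finset.mem_filter.1 hp).1
  have hem : ∀ p ∈ T0, e p < m := by
    intro p hp
    by_contra hcon
    push Not at hcon
    exact hmult p (hT p hp).1 ((pow_dvd_pow p hcon).trans (hT p hp).2.2.2.2)
  -- the conjugates
  set V : Finset M[X] := (Finset.univ : Finset (M ≃ₐ[K] M)).biUnion fun g => T.image (sg g) with hV
  have hVm : ∀ p, p ∈ V ↔ ∃ g : M ≃ₐ[K] M, ∃ p' ∈ T, sg g p' = p := by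
    intro p
    rw [hV, Finset.mem_biUnion]
    constructor
    · rintro ⟨g, -, hg⟩
      obtain ⟨p', hp', h⟩ := Finset.mem_image.1 hg
      exact ⟨g, p', hp', h⟩
    · rintro ⟨g, p', hp', h⟩
      exact ⟨g, Finset.mem_univ _, Finset.mem_image.2 ⟨p', hp', h⟩⟩
  have hVirr : ∀ p ∈ V, Irreducible p ∧ p.Monic := by
    intro p hp
    obtain ⟨g, p', hp', rfl⟩ := (hVm p).1 hp
    exact ⟨sg_irr g (hT p' (hTT p' hp')).1, sg_monic g (hT p' (hTT p' hp')).2.1⟩
  have hVroot : ∀ p ∈ V, ∀ c : k, p.eval (algebraMap k M c) ≠ 0 := by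
    intro p hp c
    obtain ⟨g, p', hp', rfl⟩ := (hVm p).1 hp
    rw [sg_eval]
    exact (map_ne_zero_iff g g.injective).2 ((Finset.mem_filter.1 hp').2 c)
  set FM : M[X] := ∏ p ∈ V, p with hFM
  have hFMm : FM.Monic := Polynomial.monic_prod_of_monic _ _ fun p hp => (hVirr p hp).2
  have hFMs : FM.Separable := by
    refine Polynomial.separable_prod' ?_ ?_
    · intro p hp r hr hpr
      exact coprime_of_ne (hVirr p hp).1 (hVirr r hr).1 (hVirr p hp).2 (hVirr r hr).2 hpr
    · intro p hp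
      exact (hVirr p hp).1.separable
  have hinv : ∀ g : M ≃ₐ[K] M, sg g FM = FM := by
    intro g
    have h1 : V.image (sg g) = V := by
      ext p
      rw [Finset.mem_image]
      constructor
      · rintro ⟨q, hq, rfl⟩
        obtain ⟨h, p', hp', rfl⟩ := (hVm q).1 hq
        rw [sg_sg]
        exact (hVm _).2 ⟨g * h, p', hp', rfl⟩
      · intro hp
        obtain ⟨h, p', hp', rfl⟩ := (hVm p).1 hp
        refine ⟨sg (g⁻¹ * h) p', (hVm _).2 ⟨g⁻¹ * h, p', hp', rfl⟩, ?_⟩
        rw [sg_sg, mul_inv_cancel_left]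
    rw [hFM, sg_prod]
    conv_rhs => rw [← h1, Finset.prod_image (fun p _ q _ h => sg_inj g h)]
  obtain ⟨F, hF⟩ : ∃ F : K[X], F.map (algebraMap K M) = FM := by
    have h1 : FM ∈ lifts (algebraMap K M) := by
      rw [lifts_iff_coeff_lifts]
      intro j
      show FM.coeff j ∈ Set.range (algebraMap K M)
      rw [IsGalois.mem_range_algebraMap_iff_fixed]
      intro g
      have h2 : (sg g FM).coeff j = g (FM.coeff j) := Polynomial.coeff_map _ _
      rw [← h2, hinv]
    exact (mem_lifts _).1 h1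
  have hFm : F.Monic := by
    rw [← Polynomial.monic_map_iff (f := algebraMap K M), hF]
    exact hFMm
  have hF0 : F ≠ 0 := hFm.ne_zero
  have hFsep : F.Separable := by
    rw [← Polynomial.separable_map (algebraMap K M), hF]
    exact hFMs
  -- the factorization of the conjugates
  have hfac : ∀ g : M ≃ₐ[K] M, Fac (k := k) m (F.map (algebraMap K M))
      (H.map (g : M →+* M)) (g u) (T.image (sg g)) (T'.image (sg g)) (fun p => e (sg g⁻¹ p)) := by
    intro g
    refine ⟨(map_ne_zero_iff g g.injective).2 hu, ?_, ?_, ?_, ?_, ?_⟩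
    · rw [Finset.prod_image (fun p _ q _ h => sg_inj g h),
        Finset.prod_image (fun p _ q _ h => sg_inj g h)]
      have h1 : (∏ p ∈ T, p ^ e p) * ∏ p ∈ T', p ^ e p = ∏ p ∈ T0, p ^ e p :=
        Finset.prod_filter_mul_prod_filter_not _ _ _
      have h2 : H = C u * ((∏ p ∈ T, p ^ e p) * ∏ p ∈ T', p ^ e p) := by rw [h1, ← hHT]
      have h3 : sg g H = C (g u) * ((∏ p ∈ T, sg g p ^ e p) * ∏ p ∈ T', sg g p ^ e p) := by
        conv_lhs => rw [h2]
        rw [sg_mul, sg_mul, sg_prod, sg_prod]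
        congr 1
        · exact Polynomial.map_C _
        · congr 1
          · exact Finset.prod_congr rfl fun p _ => sg_pow _ _ _
          · exact Finset.prod_congr rfl fun p _ => sg_pow _ _ _
      have h4 : H.map (g : M →+* M) = sg g H := rfl
      rw [h4, h3]
      congr 2
      · exact Finset.prod_congr rfl fun p _ => by rw [sg_inv]
      · exact Finset.prod_congr rfl fun p _ => by rw [sg_inv]
    · intro p hp
      obtain ⟨p', hp', rfl⟩ := Finset.mem_image.1 hp
      have h1 := hT p' (hTT p' hp')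
      rw [sg_inv]
      exact ⟨sg_irr g h1.1, sg_monic g h1.2.1, h1.2.2.2.1, hem p' (hTT p' hp')⟩
    · intro p hp c
      exact hVroot p ((hVm p).2 (by
        obtain ⟨p', hp', rfl⟩ := Finset.mem_image.1 hp
        exact ⟨g, p', hp', rfl⟩)) c
    · rw [hF, hFM]
      refine Finset.prod_dvd_prod_of_subset _ _ _ ?_
      intro p hp
      obtain ⟨p', hp', rfl⟩ := Finset.mem_image.1 hp
      exact (hVm _).2 ⟨g, p', hp', rfl⟩
    · intro p hp
      obtain ⟨p', hp', rfl⟩ := Finset.mem_image.1 hp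
      have h1 := (Finset.mem_filter.1 hp').2
      push Not at h1
      obtain ⟨c, hc⟩ := h1
      refine ⟨c, ?_⟩
      refine eq_X_sub_C (sg_irr g (hT p' (hTT' p' hp')).1) (sg_monic g (hT p' (hTT' p' hp')).2.1) ?_
      rw [sg_eval, hc, map_zero]
  -- degrees
  have hdegT : ∑ p ∈ T0, p.natDegree ≤ n := by
    have h1 : (∏ p ∈ T0, p) ∣ H := by
      rw [hHT]
      refine Dvd.dvd.mul_left ?_ _
      exact Finset.prod_dvd_prod_of_dvd _ _ fun p hp =>
        dvd_pow_self p (by have := (hT p hp).2.2.2.1; omega)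
    have h2 := Polynomial.natDegree_le_of_dvd h1 hH
    rw [Polynomial.natDegree_prod _ _ fun p hp => (hT p hp).1.ne_zero] at h2
    exact h2.trans hdeg
  have hcard : Nat.card {i // y i = 0} ≤ ∑ p ∈ T', p.natDegree := by
    rw [Nat.card_eq_fintype_card, Fintype.card_subtype]
    have h1 : (Finset.univ.filter fun i => y i = 0).card ≤ T'.card := by
      refine Finset.card_le_card_of_injOn (fun i => X - C (algebraMap k M (a i))) ?_ ?_
      · intro i hi
        have hi2 : y i = 0 := (Finset.mem_filter.1 hi).2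
        have hi3 : H.eval (algebraMap k M (a i)) = 0 := by
          rw [← hy, hi2, zero_pow (by omega)]
        refine Finset.mem_coe.2 (Finset.mem_filter.2 ⟨hTall _ (Polynomial.irreducible_X_sub_C _)
          (Polynomial.monic_X_sub_C _) (Polynomial.dvd_iff_isRoot.2 hi3), ?_⟩)
        push Not
        exact ⟨a i, by simp⟩
      · intro i _ j _ hij
        have h2 := Polynomial.C_injective (sub_right_injective hij)
        exact ha ((algebraMap k M).injective h2)
    refine h1.trans ?_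
    rw [Finset.card_eq_sum_ones]
    refine Finset.sum_le_sum fun p hp => ?_
    exact (hT p (hTT' p hp)).1.natDegree_pos
  have hsplitT : ∑ p ∈ T, p.natDegree + ∑ p ∈ T', p.natDegree = ∑ p ∈ T0, p.natDegree :=
    Finset.sum_filter_add_sum_filter_not _ _ _
  -- the set `T.image (sg g)` depends only on the vector `g (y i)`
  have hHg : ∀ g h : M ≃ₐ[K] M, (∀ i, g (y i) = h (y i)) → sg g H = sg h H := by
    intro g h hgh
    refine Polynomial.eq_of_degrees_lt_of_eval_index_eq
      (v := fun i : Fin (N + 1) => algebraMap k M (a i)) Finset.univ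
      (fun i _ j _ hij => ha ((algebraMap k M).injective hij)) ?_ ?_ ?_
    · rw [Finset.card_univ, Fintype.card_fin]
      refine (Polynomial.degree_le_natDegree).trans_lt ?_
      rw [sg_deg]
      exact_mod_cast Nat.lt_succ_of_le (hdeg.trans hnN)
    · rw [Finset.card_univ, Fintype.card_fin]
      refine (Polynomial.degree_le_natDegree).trans_lt ?_
      rw [sg_deg]
      exact_mod_cast Nat.lt_succ_of_le (hdeg.trans hnN)
    · intro i _
      show (sg g H).eval (algebraMap k M (a i)) = (sg h H).eval (algebraMap k M (a i))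
      rw [sg_eval, sg_eval, ← hy, map_pow, map_pow, hgh]
  have hsub : ∀ g h : M ≃ₐ[K] M, (∀ i, g (y i) = h (y i)) → T.image (sg g) ⊆ T.image (sg h) := by
    intro g h hgh p hp
    obtain ⟨p', hp', rfl⟩ := Finset.mem_image.1 hp
    have h1 := hT p' (hTT p' hp')
    have h2 : sg g p' ∣ sg h H := by
      rw [← hHg g h hgh]
      exact sg_dvd g h1.2.2.1
    have h3 : sg h⁻¹ (sg g p') ∣ H := by
      have := sg_dvd h⁻¹ h2
      rwa [sg_inv] at this
    refine Finset.mem_image.2 ⟨sg h⁻¹ (sg g p'), ?_, sg_inv' _ _⟩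
    refine Finset.mem_filter.2 ⟨hTall _ (sg_irr _ (sg_irr _ h1.1))
      (sg_monic _ (sg_monic _ h1.2.1)) h3, ?_⟩
    intro c
    rw [sg_eval, sg_eval]
    exact (map_ne_zero_iff _ (h⁻¹ : M ≃ₐ[K] M).injective).2
      ((map_ne_zero_iff g g.injective).2 ((Finset.mem_filter.1 hp').2 c))
  let vec : (M ≃ₐ[K] M) → Fin (N + 1) → M := fun g i => g (y i)
  let Rv : Finset (Fin (N + 1) → M) := Finset.univ.image vec
  have hRv : Rv.card ≤ r := by
    have h1 : Set.range vec = (Rv : Set (Fin (N + 1) → M)) := by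
      ext v
      simp [Rv]
    have h2 : (Set.range vec).ncard ≤ r := hr
    rwa [h1, Set.ncard_coe_finset] at h2
  have hsec : ∀ v ∈ Rv, ∃ g, vec g = v := by
    intro v hv
    obtain ⟨g, -, hg⟩ := Finset.mem_image.1 hv
    exact ⟨g, hg⟩
  choose! sec hsec' using hsec
  have hdF : F.natDegree ≤ r * ∑ p ∈ T, p.natDegree := by
    have h1 : F.natDegree = ∑ p ∈ V, p.natDegree := by
      rw [← Polynomial.natDegree_map (algebraMap K M), hF, hFM,
        Polynomial.natDegree_prod _ _ fun p hp => (hVirr p hp).1.ne_zero]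
    have h2 : V ⊆ Rv.biUnion fun v => T.image (sg (sec v)) := by
      intro p hp
      obtain ⟨g, p', hp', rfl⟩ := (hVm p).1 hp
      have hv : vec g ∈ Rv := Finset.mem_image.2 ⟨g, Finset.mem_univ _, rfl⟩
      refine Finset.mem_biUnion.2 ⟨vec g, hv, ?_⟩
      have h3 := hsec' (vec g) hv
      exact hsub g (sec (vec g)) (fun i => (congrFun h3 i).symm)
        (Finset.mem_image.2 ⟨p', hp', rfl⟩)
    rw [h1]
    calc ∑ p ∈ V, p.natDegree ≤ ∑ p ∈ Rv.biUnion fun v => T.image (sg (sec v)), p.natDegree :=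
          Finset.sum_le_sum_of_subset h2
      _ ≤ ∑ v ∈ Rv, ∑ p ∈ T.image (sg (sec v)), p.natDegree := conj_sum_le _ _ _
      _ = ∑ v ∈ Rv, ∑ p ∈ T, p.natDegree := by
          refine Finset.sum_congr rfl fun v _ => ?_
          rw [Finset.sum_image (fun p _ q _ h => sg_inj _ h)]
          exact Finset.sum_congr rfl fun p _ => sg_deg _ _
      _ = Rv.card * ∑ p ∈ T, p.natDegree := by rw [Finset.sum_const, smul_eq_mul]
      _ ≤ r * ∑ p ∈ T, p.natDegree := Nat.mul_le_mul_right _ hRv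
  refine ⟨F, hFm, hFsep.squarefree, ?_, ?_, ?_, ?_⟩
  · intro c h0
    have h1 : FM.eval (algebraMap k M c) = 0 := by
      rw [← hF, IsScalarTower.algebraMap_apply k K M, Polynomial.eval_map_algebraMap,
        Polynomial.aeval_algebraMap_apply, Polynomial.coe_aeval_eq_eval, h0, map_zero]
    rw [hFM, Polynomial.eval_prod] at h1
    obtain ⟨p, hp, hp0⟩ := Finset.prod_eq_zero_iff.1 h1
    exact hVroot p hp c hp0
  · have h1 : ∑ p ∈ T, p.natDegree + Nat.card {i // y i = 0} ≤ n := by omega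
    calc F.natDegree + r * Nat.card {i // y i = 0}
        ≤ r * ∑ p ∈ T, p.natDegree + r * Nat.card {i // y i = 0} := Nat.add_le_add_right hdF _
      _ = r * (∑ p ∈ T, p.natDegree + Nat.card {i // y i = 0}) := by rw [Nat.mul_add]
      _ ≤ r * n := Nat.mul_le_mul_left _ h1
  · intro g
    exact ⟨_, _, _, _, hfac g⟩
  · intro p hp hd
    rw [hF, hFM] at hd
    obtain ⟨q, hq, hpq⟩ := (hp.prime.dvd_finsetProd_iff _).1 hd
    obtain ⟨g, p', hp', rfl⟩ := (hVm q).1 hq
    exact ⟨g, hpq.trans (sg_dvd g (hT p' (hTT p' hp')).2.2.1)⟩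

end Pool.Agent.N92.AN
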